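import Pool.Agent.Work.MP_db9399_ts.Push

set_option autoImplicit false

namespace Pool.Agent.Work.MP_db9399_ts

open Finset Classical

universe u

section

variable {E V P R N : Type u} [Fintype V] [Fintype N]

theorem push_fib (Y : Sys E V P R N) (Gr : Finset V) (Q : N → Prop) (φ : N → ℝ) (ψ : V → ℝ)
    [d1 : ∀ v, DecidablePred fun n => Y.vx n = v ∧ Q n]
    [d2 : DecidablePred fun n => Y.vx n ∈ Gr ∧ Q n] :
    ∑ v ∈ Gr, (∑ n with Y.vx n = v ∧ Q n, φ n) * ψ v =
      ∑ n with Y.vx n ∈ Gr ∧ Q n, φ n * ψ (Y.vx n) := by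
  have h1 : ∀ v ∈ Gr, (∑ n with Y.vx n = v ∧ Q n, φ n) * ψ v =
      ∑ n, if Y.vx n = v ∧ Q n then φ n * ψ (Y.vx n) else 0 := by
    intro v _
    rw [Finset.sum_mul, Finset.sum_filter]
    refine Finset.sum_congr rfl (fun n _ => ?_)
    by_cases h : Y.vx n = v ∧ Q n
    · rw [if_pos h, if_pos h, h.1]
    · rw [if_neg h, if_neg h]
  rw [Finset.sum_congr rfl h1, Finset.sum_comm, Finset.sum_filter]
  refine Finset.sum_congr rfl (fun n _ => ?_)
  by_cases hQ : Q n
  · by_cases hG : Y.vx n ∈ Gr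
    · rw [if_pos ⟨hG, hQ⟩, Finset.sum_eq_single (Y.vx n)]
      · rw [if_pos ⟨rfl, hQ⟩]
      · intro v _ hv
        rw [if_neg (fun h => hv h.1.symm)]
      · intro h; exact absurd hG h
    · rw [if_neg (fun h => hG h.1)]
      refine Finset.sum_eq_zero (fun v hv => ?_)
      rw [if_neg]
      rintro ⟨h, -⟩
      exact hG (h ▸ hv)
  · rw [if_neg (fun h => hQ h.2)]
    exact Finset.sum_eq_zero (fun v _ => by rw [if_neg (fun h => hQ h.2)])

theorem push_fibP [Fintype P] (Y : Sys E V P R N) (K : P → Prop) (Z : N → Prop)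
    (Ψ : N → ℝ) (Φ : P → N → ℝ) (hΨ : ∀ n p, Y.pu n = some p → Ψ n = Φ p n)
    [d1 : DecidablePred K] [d2 : ∀ p, DecidablePred fun n => Y.pu n = some p ∧ Z n]
    [d3 : DecidablePred fun n => Z n ∧ (∃ p, Y.pu n = some p ∧ K p)] :
    ∑ n with Z n ∧ (∃ p, Y.pu n = some p ∧ K p), Ψ n =
      ∑ p with K p, ∑ n with Y.pu n = some p ∧ Z n, Φ p n := by
  have h1 : ∀ p ∈ Finset.univ.filter K, (∑ n with Y.pu n = some p ∧ Z n, Φ p n) =
      ∑ n, if Y.pu n = some p ∧ Z n then Φ p n else 0 := by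
    intro p _
    rw [Finset.sum_filter]
  rw [Finset.sum_congr rfl h1, Finset.sum_comm, Finset.sum_filter]
  refine Finset.sum_congr rfl (fun n _ => ?_)
  by_cases hZ : Z n
  · by_cases hp : ∃ p, Y.pu n = some p ∧ K p
    · obtain ⟨p, hp1, hp2⟩ := hp
      rw [if_pos ⟨hZ, p, hp1, hp2⟩, Finset.sum_eq_single p]
      · rw [if_pos ⟨hp1, hZ⟩, hΨ n p hp1]
      · intro p' _ hne
        rw [if_neg]
        rintro ⟨h, -⟩
        rw [hp1] at h
        exact hne (Option.some.inj h).symm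
      · intro h
        exact absurd (Finset.mem_filter.2 ⟨Finset.mem_univ _, hp2⟩) h
    · rw [if_neg (fun h => hp h.2)]
      symm
      refine Finset.sum_eq_zero (fun p hp' => ?_)
      rw [if_neg]
      rintro ⟨h, -⟩
      exact hp ⟨p, h, (Finset.mem_filter.1 hp').2⟩
  · rw [if_neg (fun h => hZ h.1)]
    symm
    exact Finset.sum_eq_zero (fun p _ => by rw [if_neg (fun h => hZ h.2)])

/-- noise of the pusher `p` -/
noncomputable def Sys.nu (Y : Sys E V P R N) (Gr : Finset V) (w : E → ℝ) (η : V → ℝ) (p : P) :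
    ℝ :=
  ∑ n with Y.vx n ∈ Gr ∧ Y.pu n = some p, w (Y.ed n) * η (Y.vx n)

theorem push_nu (Y : Sys E V P R N) (Gr : Finset V) (w : E → ℝ) (ψ : V → ℝ) (p : P) :
    ∑ v ∈ Gr, Y.aN w p v * ψ v = Y.nu Gr w ψ p :=
  push_fib Y Gr (fun n => Y.pu n = some p) (fun n => w (Y.ed n)) ψ

/-- total share of the row `q` at the pushers of kind `h` -/
noncomputable def Sys.GG [Fintype P] (Y : Sys E V P R N) (Gr : Finset V) (b : E → ℝ) (h : Bool)
    (q : R) : ℝ :=
  ∑ p with (h = true ↔ ¬ Y.isR p), Y.g Gr b p q / Y.B Gr b p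

theorem push_aC [Fintype P] (Y : Sys E V P R N) (Gr : Finset V) (b w : E → ℝ) (ψ : V → ℝ)
    (h : Bool) (q : R) :
    ∑ v ∈ Gr, Y.aC Gr b w h q v * ψ v =
      ∑ p with (h = true ↔ ¬ Y.isR p), Y.nu Gr w ψ p * (Y.g Gr b p q / Y.B Gr b p) := by
  unfold Sys.aC
  refine (push_fib Y Gr (fun n => ∃ p, Y.pu n = some p ∧ (h = true ↔ ¬ Y.isR p)) _ ψ).trans ?_
  refine (push_fibP Y (fun p => (h = true ↔ ¬ Y.isR p)) (fun n => Y.vx n ∈ Gr) _
    (fun p n => w (Y.ed n) * ψ (Y.vx n) * (Y.g Gr b p q / Y.B Gr b p)) ?_).trans ?_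
  · intro n p hp
    rw [hp]
    ring
  · refine Finset.sum_congr rfl (fun p _ => ?_)
    unfold Sys.nu
    rw [Finset.sum_mul]
    refine Finset.sum_congr ?_ (fun n _ => rfl)
    ext n
    simp only [Finset.mem_filter, Finset.mem_univ, true_and, and_comm]

theorem push_w {b w : E → ℝ} {β : ℝ} (b0 : ∀ e, 0 ≤ b e ∧ b e ≤ β)
    (w0 : ∀ e, |w e - b e| ≤ b e / 2) (e : E) : 0 ≤ w e ∧ w e ≤ 2 * β := by
  have h1 := abs_le.1 (w0 e)
  have h2 := b0 e
  constructor <;> linarith [h1.1, h1.2, h2.1, h2.2]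

theorem push_D0 (Y : Sys E V P R N) (p : P) : 0 ≤ Y.D p := Nat.cast_nonneg _

theorem push_B0 (Y : Sys E V P R N) (Gr : Finset V) {b : E → ℝ} (hb : ∀ e, 0 ≤ b e) (p : P) :
    0 ≤ Y.B Gr b p := Finset.sum_nonneg (fun _ _ => hb _)

theorem push_g0 (Y : Sys E V P R N) (Gr : Finset V) {b : E → ℝ} (hb : ∀ e, 0 ≤ b e) (p : P)
    (q : R) : 0 ≤ Y.g Gr b p q := Finset.sum_nonneg (fun _ _ => hb _)

theorem push_g_le (Y : Sys E V P R N) (Gr : Finset V) {b : E → ℝ} {β x : ℝ}
    (b0 : ∀ e, 0 ≤ b e ∧ b e ≤ β) (hβ : 0 ≤ β) (p : P) (q : R)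
    (hx : ((univ.filter fun n => Y.pu n = some p ∧ Y.row (Y.vx n) = some q).card : ℝ) ≤ x) :
    Y.g Gr b p q ≤ β * x := by
  have h1 : Y.g Gr b p q ≤ ∑ n with Y.pu n = some p ∧ Y.row (Y.vx n) = some q, b (Y.ed n) := by
    refine Finset.sum_le_sum_of_subset_of_nonneg ?_ (fun n _ _ => (b0 _).1)
    intro n hn
    rw [Finset.mem_filter] at hn ⊢
    exact ⟨hn.1, hn.2.1, hn.2.2.1⟩
  refine h1.trans ?_
  refine (Finset.sum_le_card_nsmul _ _ β (fun n _ => (b0 _).2)).trans ?_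
  rw [nsmul_eq_mul, mul_comm]
  exact mul_le_mul_of_nonneg_left hx hβ

theorem push_key1 (Y : Sys E V P R N) (Gr : Finset V) {b : E → ℝ} {β x c : ℝ}
    (b0 : ∀ e, 0 ≤ b e ∧ b e ≤ β) (hβ : 0 ≤ β) (hc : 0 < c) (p : P) (q : R)
    (hm : c * Y.D p ≤ Y.B Gr b p)
    (hx : ((univ.filter fun n => Y.pu n = some p ∧ Y.row (Y.vx n) = some q).card : ℝ) ≤ x) :
    Y.D p * (Y.g Gr b p q / Y.B Gr b p) ^ 2 ≤ β * x / c * (Y.g Gr b p q / Y.B Gr b p) := by
  rcases (push_B0 Y Gr (fun e => (b0 e).1) p).lt_or_eq with hB | hB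
  · have hg := push_g_le Y Gr b0 hβ p q hx
    have hg0 := push_g0 Y Gr (fun e => (b0 e).1) p q
    have h1 : Y.D p * (Y.g Gr b p q / Y.B Gr b p) ≤ β * x / c := by
      rw [← mul_div_assoc, div_le_div_iff₀ hB hc]
      calc Y.D p * Y.g Gr b p q * c = (c * Y.D p) * Y.g Gr b p q := by ring
        _ ≤ Y.B Gr b p * (β * x) :=
          mul_le_mul hm hg hg0 hB.le
        _ = β * x * Y.B Gr b p := by ring
    calc Y.D p * (Y.g Gr b p q / Y.B Gr b p) ^ 2 =
        (Y.D p * (Y.g Gr b p q / Y.B Gr b p)) * (Y.g Gr b p q / Y.B Gr b p) := by ring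
      _ ≤ _ := mul_le_mul_of_nonneg_right h1 (div_nonneg hg0 hB.le)
  · rw [← hB]; simp

theorem push_sum_aN (Y : Sys E V P R N) (Gr : Finset V) {b w : E → ℝ} {β : ℝ}
    (b0 : ∀ e, 0 ≤ b e ∧ b e ≤ β) (w0 : ∀ e, |w e - b e| ≤ b e / 2) (p : P) :
    0 ≤ Y.nu Gr w (fun _ => 1) p ∧ Y.nu Gr w (fun _ => 1) p ≤ 2 * β * Y.D p := by
  unfold Sys.nu
  constructor
  · exact Finset.sum_nonneg (fun n _ => by rw [mul_one]; exact (push_w b0 w0 _).1)
  · have h1 : ∑ n with Y.vx n ∈ Gr ∧ Y.pu n = some p, w (Y.ed n) * 1 ≤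
        ∑ n with Y.pu n = some p, 2 * β := by
      refine (Finset.sum_le_sum (g := fun _ => 2 * β) (fun n _ => ?_)).trans ?_
      · rw [mul_one]; exact (push_w b0 w0 _).2
      · refine Finset.sum_le_sum_of_subset_of_nonneg ?_ (fun n _ _ => ?_)
        · intro n hn
          rw [Finset.mem_filter] at hn ⊢
          exact ⟨hn.1, hn.2.2⟩
        · exact (push_w b0 w0 (Y.ed n)).1.trans (push_w b0 w0 (Y.ed n)).2
    refine h1.trans (le_of_eq ?_)
    rw [Finset.sum_const, nsmul_eq_mul, mul_comm]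
    rfl

theorem push_aC_sq [Fintype P] (Y : Sys E V P R N) (Gr : Finset V) {b w : E → ℝ}
    {β c t x : ℝ} (b0 : ∀ e, 0 ≤ b e ∧ b e ≤ β) (w0 : ∀ e, |w e - b e| ≤ b e / 2)
    (hβ : 0 ≤ β) (hc : 0 < c) (ht : 0 ≤ t)
    (tv : ∀ v, ((univ.filter fun n => Y.vx n = v).card : ℝ) ≤ t)
    (hm : ∀ p, c * Y.D p ≤ Y.B Gr b p) (h : Bool) (q : R)
    (hx : ∀ p, (h = true ↔ ¬ Y.isR p) →
      ((univ.filter fun n => Y.pu n = some p ∧ Y.row (Y.vx n) = some q).card : ℝ) ≤ x) :
    ∑ v ∈ Gr, Y.aC Gr b w h q v ^ 2 ≤ kap β c t x * Y.GG Gr b h q := by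
  have h1 : ∀ v ∈ Gr, Y.aC Gr b w h q v ^ 2 ≤
      t * ((∑ n with Y.vx n = v ∧ (∃ p, Y.pu n = some p ∧ (h = true ↔ ¬ Y.isR p)),
        (w (Y.ed n) * (match Y.pu n with
          | some p => Y.g Gr b p q / Y.B Gr b p
          | none => 0)) ^ 2) * 1) := by
    intro v _
    unfold Sys.aC
    refine sq_sum_le_card_mul_sum_sq.trans ?_
    rw [mul_one]
    refine mul_le_mul ?_ le_rfl (Finset.sum_nonneg (fun _ _ => sq_nonneg _)) ht
    refine le_trans ?_ (tv v)
    exact_mod_cast Finset.card_le_card (fun n hn => by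
      rw [Finset.mem_filter] at hn ⊢
      exact ⟨hn.1, hn.2.1⟩)
  refine (Finset.sum_le_sum h1).trans ?_
  rw [← Finset.mul_sum]
  rw [push_fib Y Gr (fun n => ∃ p, Y.pu n = some p ∧ (h = true ↔ ¬ Y.isR p)) _ (fun _ => (1:ℝ))]
  rw [push_fibP Y (fun p => (h = true ↔ ¬ Y.isR p)) (fun n => Y.vx n ∈ Gr) _
    (fun p n => (w (Y.ed n) * (Y.g Gr b p q / Y.B Gr b p)) ^ 2)
    (fun n p hp => by rw [hp, mul_one])]
  have h2 : ∀ p ∈ Finset.univ.filter (fun p => (h = true ↔ ¬ Y.isR p)),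
      ∑ n with Y.pu n = some p ∧ Y.vx n ∈ Gr, (w (Y.ed n) * (Y.g Gr b p q / Y.B Gr b p)) ^ 2 ≤
        4 * β ^ 2 * (β * x / c * (Y.g Gr b p q / Y.B Gr b p)) := by
    intro p hp
    have h3 : ∑ n with Y.pu n = some p ∧ Y.vx n ∈ Gr,
        (w (Y.ed n) * (Y.g Gr b p q / Y.B Gr b p)) ^ 2 ≤
        ∑ n with Y.pu n = some p, 4 * β ^ 2 * (Y.g Gr b p q / Y.B Gr b p) ^ 2 := by
      refine (Finset.sum_le_sum (g := fun _ => 4 * β ^ 2 * (Y.g Gr b p q / Y.B Gr b p) ^ 2)
        (fun n _ => ?_)).trans ?_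
      · rw [mul_pow]
        refine mul_le_mul_of_nonneg_right ?_ (sq_nonneg _)
        have := push_w b0 w0 (Y.ed n)
        nlinarith [this.1, this.2]
      · refine Finset.sum_le_sum_of_subset_of_nonneg ?_ (fun n _ _ => by positivity)
        intro n hn
        rw [Finset.mem_filter] at hn ⊢
        exact ⟨hn.1, hn.2.1⟩
    refine h3.trans ?_
    rw [Finset.sum_const, nsmul_eq_mul]
    have h4 := push_key1 Y Gr b0 hβ hc p q (hm p) (hx p (Finset.mem_filter.1 hp).2)
    calc ((univ.filter fun n => Y.pu n = some p).card : ℝ) *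
          (4 * β ^ 2 * (Y.g Gr b p q / Y.B Gr b p) ^ 2) =
          4 * β ^ 2 * (Y.D p * (Y.g Gr b p q / Y.B Gr b p) ^ 2) := by unfold Sys.D; ring
      _ ≤ _ := mul_le_mul_of_nonneg_left h4 (by positivity)
  refine (mul_le_mul_of_nonneg_left (Finset.sum_le_sum h2) ht).trans (le_of_eq ?_)
  rw [← Finset.mul_sum, ← Finset.mul_sum]
  unfold kap Sys.GG
  ring

/-- the correction factor -/
noncomputable def lamq (F G G0 : ℝ) : ℝ := if G0 ≤ G then F / G else 0

theorem lamq_bd {F G G0 K k : ℝ} (hK : 0 < K) (hk : 0 < k) (hG0 : 0 < G0) (hG : 0 ≤ G)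
    (hF : |F| ≤ K * Real.sqrt (k * G)) :
    |lamq F G G0| ≤ K * Real.sqrt (k / G0) ∧ |F - lamq F G G0 * G| ≤ K * Real.sqrt (k * G0) := by
  unfold lamq
  split_ifs with h
  · have hGp : 0 < G := lt_of_lt_of_le hG0 h
    constructor
    · rw [abs_div, abs_of_pos hGp, div_le_iff₀ hGp]
      refine hF.trans ?_
      rw [mul_assoc]
      refine mul_le_mul_of_nonneg_left ?_ hK.le
      rw [Real.sqrt_le_left (by positivity)]
      rw [mul_pow, Real.sq_sqrt (by positivity)]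
      rw [div_mul_eq_mul_div, le_div_iff₀ hG0]
      have : k * G * G0 ≤ k * G * G := mul_le_mul_of_nonneg_left h (by positivity)
      nlinarith
    · rw [div_mul_cancel₀ _ hGp.ne', sub_self, abs_zero]
      positivity
  · push Not at h
    constructor
    · rw [abs_zero]; positivity
    · rw [zero_mul, sub_zero]
      refine hF.trans (mul_le_mul_of_nonneg_left (Real.sqrt_le_sqrt ?_) hK.le)
      exact mul_le_mul_of_nonneg_left h.le hk.le

theorem push_tst {Gr : Finset V} {η ηb a : V → ℝ} {K κ1 : ℝ}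
    (h : Tst Gr (fun v => η v - ηb v) K a) (ha : ∀ v ∈ Gr, 0 ≤ a v) (hb : ∀ v, |ηb v| ≤ κ1) :
    |∑ v ∈ Gr, a v * η v| ≤ K * Real.sqrt (∑ v ∈ Gr, a v ^ 2) + κ1 * ∑ v ∈ Gr, a v := by
  have h1 : ∑ v ∈ Gr, a v * η v = ∑ v ∈ Gr, a v * (η v - ηb v) + ∑ v ∈ Gr, a v * ηb v := by
    rw [← Finset.sum_add_distrib]
    exact Finset.sum_congr rfl (fun v _ => by ring)
  rw [h1]
  refine (abs_add_le _ _).trans (add_le_add h ?_)
  refine (Finset.abs_sum_le_sum_abs _ _).trans ?_
  rw [Finset.mul_sum]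
  refine Finset.sum_le_sum (fun v hv => ?_)
  rw [abs_mul, abs_of_nonneg (ha v hv), mul_comm]
  exact mul_le_mul_of_nonneg_right (hb v) (ha v hv)

theorem push_sq_le {Gr : Finset V} {a : V → ℝ} {m s : ℝ} (ha : ∀ v ∈ Gr, 0 ≤ a v)
    (hm : ∀ v ∈ Gr, a v ≤ m) (hm0 : 0 ≤ m) (hs : ∑ v ∈ Gr, a v ≤ s) :
    ∑ v ∈ Gr, a v ^ 2 ≤ m * s := by
  refine (Finset.sum_le_sum (fun v hv => ?_)).trans
    (le_trans (le_of_eq (Finset.mul_sum _ _ _).symm) (mul_le_mul_of_nonneg_left hs hm0))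
  rw [sq]
  exact mul_le_mul_of_nonneg_right (hm v hv) (ha v hv)

theorem push_aN0 (Y : Sys E V P R N) {w : E → ℝ} (hw : ∀ e, 0 ≤ w e) (p : P) (v : V) :
    0 ≤ Y.aN w p v := Finset.sum_nonneg (fun _ _ => hw _)

/-- the noise of a pusher -/
theorem push_nu_bd (Y : Sys E V P R N) (Gr : Finset V) {b w : E → ℝ} {η ηb : V → ℝ}
    {β K κ1 m : ℝ} (b0 : ∀ e, 0 ≤ b e ∧ b e ≤ β) (w0 : ∀ e, |w e - b e| ≤ b e / 2)
    (hβ : 0 ≤ β) (hK : 0 ≤ K) (hκ : 0 ≤ κ1) (hm : 0 ≤ m) (p : P)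
    (hb : ∀ v, |ηb v| ≤ κ1) (t1 : Tst Gr (fun v => η v - ηb v) K (Y.aN w p))
    (hc : ∀ v, ((univ.filter fun n => Y.vx n = v ∧ Y.pu n = some p).card : ℝ) ≤ m) :
    |Y.nu Gr w η p| ≤ 2 * β * K * Real.sqrt (m * Y.D p) + κ1 * (2 * β * Y.D p) := by
  have hw := push_w b0 w0
  have h1 := push_tst t1 (fun v _ => push_aN0 Y (fun e => (hw e).1) p v) hb
  rw [push_nu] at h1
  have h2 : ∑ v ∈ Gr, Y.aN w p v = Y.nu Gr w (fun _ => 1) p := by
    rw [← push_nu]
    exact Finset.sum_congr rfl (fun v _ => (mul_one _).symm)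
  have h3 := (push_sum_aN Y Gr b0 w0 p).2
  have h4 : ∑ v ∈ Gr, Y.aN w p v ^ 2 ≤ (2 * β * m) * (2 * β * Y.D p) := by
    refine push_sq_le (fun v _ => push_aN0 Y (fun e => (hw e).1) p v) (fun v _ => ?_)
      (by positivity) (h2 ▸ h3)
    unfold Sys.aN
    refine (Finset.sum_le_card_nsmul _ _ (2 * β) (fun n _ => (hw _).2)).trans ?_
    rw [nsmul_eq_mul, mul_comm]
    exact mul_le_mul_of_nonneg_left (hc v) (by positivity)
  have h5 : Real.sqrt (∑ v ∈ Gr, Y.aN w p v ^ 2) ≤ 2 * β * Real.sqrt (m * Y.D p) := by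
    refine (Real.sqrt_le_sqrt h4).trans (le_of_eq ?_)
    rw [show (2 * β * m) * (2 * β * Y.D p) = (2 * β) ^ 2 * (m * Y.D p) by ring,
      Real.sqrt_mul (by positivity), Real.sqrt_sq (by positivity)]
  refine h1.trans (add_le_add ?_ ?_)
  · calc K * Real.sqrt (∑ v ∈ Gr, Y.aN w p v ^ 2) ≤ K * (2 * β * Real.sqrt (m * Y.D p)) :=
        mul_le_mul_of_nonneg_left h5 hK
      _ = 2 * β * K * Real.sqrt (m * Y.D p) := by ring
  · rw [h2]
    exact mul_le_mul_of_nonneg_left h3 hκ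

/-- correction through the end `n` -/
noncomputable def Sys.con (Y : Sys E V P R N) (Gr : Finset V) (b : E → ℝ) (ν : P → ℝ)
    (l : P → Option R → ℝ) (n : N) : ℝ :=
  match Y.pu n with
  | some p => (ν p - l p (Y.row (Y.vx n))) * (b (Y.ed n) / Y.B Gr b p)
  | none => 0

theorem con_some {Y : Sys E V P R N} {Gr : Finset V} {b : E → ℝ} {ν : P → ℝ}
    {l : P → Option R → ℝ} {n : N} {p : P} (h : Y.pu n = some p) :
    Y.con Gr b ν l n = (ν p - l p (Y.row (Y.vx n))) * (b (Y.ed n) / Y.B Gr b p) := by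
  unfold Sys.con; rw [h]

theorem con_none {Y : Sys E V P R N} {Gr : Finset V} {b : E → ℝ} {ν : P → ℝ}
    {l : P → Option R → ℝ} {n : N} (h : Y.pu n = none) : Y.con Gr b ν l n = 0 := by
  unfold Sys.con; rw [h]

/-- the new weights -/
noncomputable def Sys.wn (Y : Sys E V P R N) (Gr : Finset V) (b w : E → ℝ) (η : V → ℝ) (ν : P → ℝ)
    (l : P → Option R → ℝ) (e : E) : ℝ :=
  if h : ∃ n, Y.ed n = e ∧ Y.vx n ∈ Gr then w e * (1 + η (Y.vx h.choose))
  else w e - ∑ n with Y.ed n = e, Y.con Gr b ν l n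

theorem wn_G {Y : Sys E V P R N} {par : R → Prop} (hY : Y.Ok par) {Gr : Finset V}
    (dis : ∀ n n', Y.mt n = some n' → Y.vx n ∈ Gr → Y.vx n' ∉ Gr) (b w : E → ℝ) (η : V → ℝ)
    (ν : P → ℝ) (l : P → Option R → ℝ) {n : N} (hn : Y.vx n ∈ Gr) :
    Y.wn Gr b w η ν l (Y.ed n) = w (Y.ed n) * (1 + η (Y.vx n)) := by
  have h : ∃ m, Y.ed m = Y.ed n ∧ Y.vx m ∈ Gr := ⟨n, rfl, hn⟩
  unfold Sys.wn
  rw [dif_pos h]
  have h1 := h.choose_spec
  rcases hY.m2 n h.choose h1.1 with h2 | h2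
  · rw [h2]
  · exact absurd h1.2 (dis _ _ h2 hn)

theorem wn_N {Y : Sys E V P R N} {par : R → Prop} (hY : Y.Ok par) {Gr : Finset V}
    (b w : E → ℝ) (η : V → ℝ) (ν : P → ℝ) (l : P → Option R → ℝ) {n : N} (hn : Y.noG Gr n) :
    Y.wn Gr b w η ν l (Y.ed n) = w (Y.ed n) - ∑ m with Y.ed m = Y.ed n, Y.con Gr b ν l m := by
  have h : ¬ ∃ m, Y.ed m = Y.ed n ∧ Y.vx m ∈ Gr := by
    rintro ⟨m, h1, h2⟩
    rcases hY.m2 n m h1 with h3 | h3
    · exact hn.1 (h3 ▸ h2)
    · exact hn.2 m h3 h2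
  unfold Sys.wn
  rw [dif_neg h]

theorem sum_ed_none {Y : Sys E V P R N} {par : R → Prop} (hY : Y.Ok par) (f : N → ℝ) {n : N}
    (h : Y.mt n = none) : ∑ m with Y.ed m = Y.ed n, f m = f n := by
  have : (univ.filter fun m => Y.ed m = Y.ed n) = {n} := by
    ext m
    rw [Finset.mem_filter, Finset.mem_singleton]
    constructor
    · rintro ⟨-, h1⟩
      rcases hY.m2 n m h1 with h2 | h2
      · exact h2
      · rw [h] at h2; exact absurd h2 (by simp)
    · rintro rfl; exact ⟨Finset.mem_univ _, rfl⟩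
  rw [this, Finset.sum_singleton]

theorem sum_ed_some {Y : Sys E V P R N} {par : R → Prop} (hY : Y.Ok par) (f : N → ℝ) {n n' : N}
    (h : Y.mt n = some n') : ∑ m with Y.ed m = Y.ed n, f m = f n + f n' := by
  obtain ⟨-, h2, h3⟩ := hY.m1 n n' h
  have : (univ.filter fun m => Y.ed m = Y.ed n) = {n, n'} := by
    ext m
    rw [Finset.mem_filter, Finset.mem_insert, Finset.mem_singleton]
    constructor
    · rintro ⟨-, h1⟩
      rcases hY.m2 n m h1 with h4 | h4
      · exact Or.inl h4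
      · rw [h] at h4; exact Or.inr (Option.some.inj h4).symm
    · rintro (rfl | rfl)
      · exact ⟨Finset.mem_univ _, rfl⟩
      · exact ⟨Finset.mem_univ _, h2⟩
  rw [this, Finset.sum_pair h3.symm]

/-- the corrections of a pusher against its noise -/
theorem con_sum (Y : Sys E V P R N) (Gr : Finset V) {b w : E → ℝ} (η : V → ℝ) {c Λ : ℝ}
    (hb : ∀ e, 0 ≤ b e) (hc : 0 < c) (hΛ : 0 ≤ Λ) (l : P → Option R → ℝ) (p : P)
    (hm : c * Y.D p ≤ Y.B Gr b p) (hl : ∀ r, |l p r| ≤ Λ) :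
    |Y.nu Gr w η p - ∑ n with Y.pu n = some p ∧ Y.noG Gr n,
      Y.con Gr b (Y.nu Gr w η) l n| ≤ Λ := by
  rcases (push_D0 Y p).lt_or_eq with hD | hD
  · have hB : 0 < Y.B Gr b p := lt_of_lt_of_le (mul_pos hc hD) hm
    have h1 : ∑ n with Y.pu n = some p ∧ Y.noG Gr n, Y.con Gr b (Y.nu Gr w η) l n =
        Y.nu Gr w η p - ∑ n with Y.pu n = some p ∧ Y.noG Gr n,
          l p (Y.row (Y.vx n)) * (b (Y.ed n) / Y.B Gr b p) := by
      have h2 : ∑ n with Y.pu n = some p ∧ Y.noG Gr n,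
          Y.nu Gr w η p * (b (Y.ed n) / Y.B Gr b p) = Y.nu Gr w η p := by
        rw [← Finset.mul_sum, ← Finset.sum_div]
        have : (∑ n with Y.pu n = some p ∧ Y.noG Gr n, b (Y.ed n)) = Y.B Gr b p := rfl
        rw [this, div_self hB.ne', mul_one]
      conv_rhs => rw [← h2]
      rw [← Finset.sum_sub_distrib]
      refine Finset.sum_congr rfl (fun n hn => ?_)
      rw [con_some (Finset.mem_filter.1 hn).2.1]
      ring
    rw [h1, sub_sub_cancel]
    refine (Finset.abs_sum_le_sum_abs _ _).trans ?_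
    have h3 : ∑ n with Y.pu n = some p ∧ Y.noG Gr n,
        |l p (Y.row (Y.vx n)) * (b (Y.ed n) / Y.B Gr b p)| ≤
        ∑ n with Y.pu n = some p ∧ Y.noG Gr n, Λ * (b (Y.ed n) / Y.B Gr b p) := by
      refine Finset.sum_le_sum (fun n _ => ?_)
      rw [abs_mul, abs_of_nonneg (div_nonneg (hb _) hB.le)]
      exact mul_le_mul_of_nonneg_right (hl _) (div_nonneg (hb _) hB.le)
    refine h3.trans (le_of_eq ?_)
    rw [← Finset.mul_sum, ← Finset.sum_div]
    have : (∑ n with Y.pu n = some p ∧ Y.noG Gr n, b (Y.ed n)) = Y.B Gr b p := rfl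
    rw [this, div_self hB.ne', mul_one]
  · have h0 : ∀ n, Y.pu n ≠ some p := by
      intro n hn
      have h1 : (univ.filter fun n => Y.pu n = some p).card = 0 := by
        unfold Sys.D at hD
        exact_mod_cast hD.symm
      rw [Finset.card_eq_zero] at h1
      exact absurd (Finset.mem_filter.2 ⟨Finset.mem_univ n, hn⟩) (h1 ▸ Finset.notMem_empty n)
    have h1 : Y.nu Gr w η p = 0 := by
      unfold Sys.nu
      refine Finset.sum_eq_zero (fun n hn => ?_)
      exact absurd (Finset.mem_filter.1 hn).2.2 (h0 n)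
    have h2 : ∑ n with Y.pu n = some p ∧ Y.noG Gr n, Y.con Gr b (Y.nu Gr w η) l n = 0 := by
      refine Finset.sum_eq_zero (fun n hn => ?_)
      exact absurd (Finset.mem_filter.1 hn).2.1 (h0 n)
    rw [h1, h2, sub_zero, abs_zero]
    exact hΛ

/-- (3): pushers outside the pieces -/
theorem push_p {Y : Sys E V P R N} {par : R → Prop} (hY : Y.Ok par) {Gr : Finset V}
    (dis : ∀ n n', Y.mt n = some n' → Y.vx n ∈ Gr → Y.vx n' ∉ Gr) {b w : E → ℝ} (η : V → ℝ)
    {c Λ : ℝ} (hb : ∀ e, 0 ≤ b e) (hc : 0 < c) (hΛ : 0 ≤ Λ) (l : P → Option R → ℝ) (p : P)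
    (hp : ¬ Y.isR p) (hm : c * Y.D p ≤ Y.B Gr b p) (hl : ∀ r, |l p r| ≤ Λ) :
    |∑ n with Y.pu n = some p,
      (Y.wn Gr b w η (Y.nu Gr w η) l (Y.ed n) - w (Y.ed n))| ≤ Λ := by
  have hmt : ∀ n, Y.pu n = some p → Y.mt n = none := by
    intro n hn
    rcases h : Y.mt n with _ | n'
    · rfl
    · obtain ⟨q, hq, -⟩ := hY.m3 n n' p h hn
      exact absurd ⟨q, hq⟩ hp
  have h1 := con_sum Y Gr (w := w) η hb hc hΛ l p hm hl
  have h2 : ∑ n with Y.pu n = some p,
      (Y.wn Gr b w η (Y.nu Gr w η) l (Y.ed n) - w (Y.ed n)) =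
      Y.nu Gr w η p - ∑ n with Y.pu n = some p ∧ Y.noG Gr n,
        Y.con Gr b (Y.nu Gr w η) l n := by
    rw [← Finset.sum_filter_add_sum_filter_not (univ.filter fun n => Y.pu n = some p)
      (fun n => Y.vx n ∈ Gr), Finset.filter_filter, Finset.filter_filter, sub_eq_add_neg]
    congr 1
    · unfold Sys.nu
      refine Finset.sum_congr ?_ (fun n hn => ?_)
      · ext n
        simp only [Finset.mem_filter, Finset.mem_univ, true_and, and_comm]
      · rw [wn_G hY dis b w η _ l (Finset.mem_filter.1 hn).2.1]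
        ring
    · rw [← Finset.sum_neg_distrib]
      refine Finset.sum_congr ?_ (fun n hn => ?_)
      · ext n
        simp only [Finset.mem_filter, Finset.mem_univ, true_and]
        constructor
        · rintro ⟨h3, h4⟩
          refine ⟨h3, h4, fun n' h5 => ?_⟩
          rw [hmt n h3] at h5
          exact absurd h5 (by simp)
        · rintro ⟨h3, h4⟩
          exact ⟨h3, h4.1⟩
      · obtain ⟨-, h3, h4⟩ := Finset.mem_filter.1 hn
        rw [wn_N hY b w η _ l h4, sum_ed_none hY _ (hmt n h3)]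
        ring
  rw [h2]
  exact h1

/-- own corrections in the row `q` -/
theorem own_eq [Fintype P] (Y : Sys E V P R N) (Gr : Finset V) {b w : E → ℝ} (η : V → ℝ)
    (lm : Bool → ℝ) (l : P → Option R → ℝ) (q : R)
    (hl : ∀ p h, (h = true ↔ ¬ Y.isR p) → l p (some q) = lm h) :
    ∑ n with Y.row (Y.vx n) = some q ∧ Y.noG Gr n, Y.con Gr b (Y.nu Gr w η) l n =
      (∑ v ∈ Gr, Y.aC Gr b w true q v * η v - lm true * Y.GG Gr b true q) +
      (∑ v ∈ Gr, Y.aC Gr b w false q v * η v - lm false * Y.GG Gr b false q) := by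
  have h1 : ∑ n with Y.row (Y.vx n) = some q ∧ Y.noG Gr n, Y.con Gr b (Y.nu Gr w η) l n =
      ∑ n with (Y.row (Y.vx n) = some q ∧ Y.noG Gr n) ∧ (∃ p, Y.pu n = some p ∧ True),
        Y.con Gr b (Y.nu Gr w η) l n := by
    rw [Finset.sum_filter, Finset.sum_filter]
    refine Finset.sum_congr rfl (fun n _ => ?_)
    by_cases hZ : Y.row (Y.vx n) = some q ∧ Y.noG Gr n
    · rw [if_pos hZ]
      rcases hp : Y.pu n with _ | p
      · rw [if_neg, con_none hp]
        rintro ⟨-, p, h, -⟩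
        exact absurd h (by simp)
      · rw [if_pos ⟨hZ, p, rfl, trivial⟩]
    · rw [if_neg hZ, if_neg (fun h => hZ h.1)]
  rw [h1, push_fibP Y (fun _ => True) (fun n => Y.row (Y.vx n) = some q ∧ Y.noG Gr n) _
    (fun p n => (Y.nu Gr w η p - l p (Y.row (Y.vx n))) * (b (Y.ed n) / Y.B Gr b p))
    (fun n p hp => con_some hp)]
  have h2 : ∀ p, ∑ n with Y.pu n = some p ∧ (Y.row (Y.vx n) = some q ∧ Y.noG Gr n),
      (Y.nu Gr w η p - l p (Y.row (Y.vx n))) * (b (Y.ed n) / Y.B Gr b p) =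
      (Y.nu Gr w η p - l p (some q)) * (Y.g Gr b p q / Y.B Gr b p) := by
    intro p
    have h3 : Y.g Gr b p q / Y.B Gr b p =
        ∑ n with Y.pu n = some p ∧ (Y.row (Y.vx n) = some q ∧ Y.noG Gr n),
          b (Y.ed n) / Y.B Gr b p := by
      rw [← Finset.sum_div]
      rfl
    rw [h3, Finset.mul_sum]
    refine Finset.sum_congr rfl (fun n hn => ?_)
    rw [(Finset.mem_filter.1 hn).2.2.1]
  have h4 : ∀ h : Bool, ∑ p with (h = true ↔ ¬ Y.isR p),
      (Y.nu Gr w η p - l p (some q)) * (Y.g Gr b p q / Y.B Gr b p) =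
      ∑ v ∈ Gr, Y.aC Gr b w h q v * η v - lm h * Y.GG Gr b h q := by
    intro h
    rw [push_aC]
    unfold Sys.GG
    rw [Finset.mul_sum, ← Finset.sum_sub_distrib]
    refine Finset.sum_congr rfl (fun p hp => ?_)
    rw [hl p h (Finset.mem_filter.1 hp).2]
    ring
  rw [← h4 true, ← h4 false]
  simp only [h2]
  rw [← Finset.sum_filter_add_sum_filter_not (univ.filter fun _ : P => True)
      (fun p => (true = true ↔ ¬ Y.isR p))]
  congr 1
  · refine Finset.sum_congr ?_ (fun _ _ => rfl)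
    ext p; simp
  · refine Finset.sum_congr ?_ (fun _ _ => rfl)
    ext p; simp

/-- far ends in `Gr` -/
theorem far_eq {Y : Sys E V P R N} {par : R → Prop} (hY : Y.Ok par) {Gr : Finset V}
    (dis : ∀ n n', Y.mt n = some n' → Y.vx n ∈ Gr → Y.vx n' ∉ Gr) (b w : E → ℝ) (η : V → ℝ)
    (ν : P → ℝ) (l : P → Option R → ℝ) (q : R) :
    ∑ n with Y.row (Y.vx n) = some q ∧ (Y.vx n ∉ Gr ∧ ¬ Y.noG Gr n),
      (Y.wn Gr b w η ν l (Y.ed n) - w (Y.ed n)) = ∑ v ∈ Gr, Y.aF w q v * η v := by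
  unfold Sys.aF
  rw [push_fib Y Gr (fun n => ∃ n', Y.mt n = some n' ∧ Y.row (Y.vx n') = some q) _ η]
  refine Finset.sum_nbij' (fun n => (Y.mt n).getD n) (fun n => (Y.mt n).getD n) ?_ ?_ ?_ ?_ ?_
  · intro n hn
    obtain ⟨-, h1, h2, h3⟩ := Finset.mem_filter.1 hn
    have h4 : ∃ n', Y.mt n = some n' ∧ Y.vx n' ∈ Gr := by
      by_contra hc
      push Not at hc
      exact h3 ⟨h2, hc⟩
    obtain ⟨n', h5, h6⟩ := h4
    simp only [h5, Option.getD_some]
    exact Finset.mem_filter.2 ⟨Finset.mem_univ _, h6, n, (hY.m1 n n' h5).1, h1⟩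
  · intro n hn
    obtain ⟨-, h1, n', h2, h3⟩ := Finset.mem_filter.1 hn
    simp only [h2, Option.getD_some]
    refine Finset.mem_filter.2 ⟨Finset.mem_univ _, h3, dis _ _ h2 h1, fun h4 => ?_⟩
    exact h4.2 n (hY.m1 n n' h2).1 h1
  · intro n hn
    obtain ⟨-, h1, h2, h3⟩ := Finset.mem_filter.1 hn
    have h4 : ∃ n', Y.mt n = some n' ∧ Y.vx n' ∈ Gr := by
      by_contra hc
      push Not at hc
      exact h3 ⟨h2, hc⟩
    obtain ⟨n', h5, h6⟩ := h4
    simp only [h5, Option.getD_some, (hY.m1 n n' h5).1]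
  · intro n hn
    obtain ⟨-, h1, n', h2, h3⟩ := Finset.mem_filter.1 hn
    simp only [h2, Option.getD_some, (hY.m1 n n' h2).1]
  · intro n hn
    obtain ⟨-, h1, h2, h3⟩ := Finset.mem_filter.1 hn
    have h4 : ∃ n', Y.mt n = some n' ∧ Y.vx n' ∈ Gr := by
      by_contra hc
      push Not at hc
      exact h3 ⟨h2, hc⟩
    obtain ⟨n', h5, h6⟩ := h4
    simp only [h5, Option.getD_some]
    have h7 := (hY.m1 n n' h5).2.1
    rw [← h7, wn_G hY dis b w η ν l h6]
    ring

/-- corrections of the far end -/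
noncomputable def Sys.cm (Y : Sys E V P R N) (f : N → ℝ) (n : N) : ℝ :=
  match Y.mt n with
  | some n' => f n'
  | none => 0

theorem cm_eq {Y : Sys E V P R N} {par : R → Prop} (hY : Y.Ok par) (Gr : Finset V)
    (f : N → ℝ) (hf : ∀ n, Y.pu n = none → f n = 0) (q : R) :
    ∑ n with Y.row (Y.vx n) = some q ∧ Y.noG Gr n, Y.cm f n =
      ∑ n with Y.pu n = some (Y.rp q) ∧ Y.noG Gr n, f n := by
  have h0 : ∑ n with Y.row (Y.vx n) = some q ∧ Y.noG Gr n, Y.cm f n =
      ∑ n with (Y.row (Y.vx n) = some q ∧ Y.noG Gr n) ∧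
        (∃ n', Y.mt n = some n' ∧ Y.pu n' = some (Y.rp q)), Y.cm f n := by
    rw [Finset.sum_filter, Finset.sum_filter]
    refine Finset.sum_congr rfl (fun n _ => ?_)
    by_cases hZ : Y.row (Y.vx n) = some q ∧ Y.noG Gr n
    · rw [if_pos hZ]
      by_cases hE : ∃ n', Y.mt n = some n' ∧ Y.pu n' = some (Y.rp q)
      · rw [if_pos ⟨hZ, hE⟩]
      · rw [if_neg (fun h => hE h.2)]
        unfold Sys.cm
        rcases h1 : Y.mt n with _ | n'
        · rfl
        · show f n' = 0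
          refine hf n' ?_
          rcases h2 : Y.pu n' with _ | p
          · rfl
          · exfalso
            obtain ⟨q', h3, h4⟩ := hY.m3 n' n p (hY.m1 n n' h1).1 h2
            rw [hZ.1] at h4
            have h5 : q = q' := Option.some.inj h4
            exact hE ⟨n', h1, by rw [h2, h3, h5]⟩
    · rw [if_neg hZ, if_neg (fun h => hZ h.1)]
  rw [h0]
  refine Finset.sum_nbij' (fun n => (Y.mt n).getD n) (fun n => (Y.mt n).getD n) ?_ ?_ ?_ ?_ ?_
  · intro n hn
    obtain ⟨-, ⟨h1, h2⟩, n', h3, h4⟩ := Finset.mem_filter.1 hn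
    simp only [h3, Option.getD_some]
    refine Finset.mem_filter.2 ⟨Finset.mem_univ _, h4, h2.2 n' h3, fun m hm => ?_⟩
    rw [(hY.m1 n n' h3).1] at hm
    rw [← Option.some.inj hm]
    exact h2.1
  · intro n hn
    obtain ⟨-, h1, h2⟩ := Finset.mem_filter.1 hn
    rcases h3 : Y.mt n with _ | n'
    · exact absurd h1 (hY.m4 n q h3)
    · simp only [Option.getD_some]
      obtain ⟨q', h4, h5⟩ := hY.m3 n n' _ h3 h1
      have h6 : q = q' := hY.inj h4
      refine Finset.mem_filter.2 ⟨Finset.mem_univ _, ⟨by rw [h5, h6], h2.2 n' h3,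
        fun m hm => ?_⟩, n, (hY.m1 n n' h3).1, h1⟩
      rw [(hY.m1 n n' h3).1] at hm
      rw [← Option.some.inj hm]
      exact h2.1
  · intro n hn
    obtain ⟨-, ⟨h1, h2⟩, n', h3, h4⟩ := Finset.mem_filter.1 hn
    simp only [h3, Option.getD_some, (hY.m1 n n' h3).1]
  · intro n hn
    obtain ⟨-, h1, h2⟩ := Finset.mem_filter.1 hn
    rcases h3 : Y.mt n with _ | n'
    · exact absurd h1 (hY.m4 n q h3)
    · simp only [Option.getD_some, (hY.m1 n n' h3).1]
  · intro n hn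
    obtain ⟨-, ⟨h1, h2⟩, n', h3, h4⟩ := Finset.mem_filter.1 hn
    unfold Sys.cm
    simp only [h3, Option.getD_some]

/-- the change of a row -/
theorem row_eq {Y : Sys E V P R N} {par : R → Prop} (hY : Y.Ok par) {Gr : Finset V}
    (dis : ∀ n n', Y.mt n = some n' → Y.vx n ∈ Gr → Y.vx n' ∉ Gr) (b w : E → ℝ) (η : V → ℝ)
    (ν : P → ℝ) (l : P → Option R → ℝ) (q : R) :
    ∑ n with Y.row (Y.vx n) = some q, (Y.wn Gr b w η ν l (Y.ed n) - w (Y.ed n)) -
      ∑ v ∈ Gr.filter (fun v => Y.row v = some q), η v * ∑ n with Y.vx n = v, w (Y.ed n) =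
    ∑ v ∈ Gr, Y.aF w q v * η v -
      ∑ n with Y.row (Y.vx n) = some q ∧ Y.noG Gr n, Y.con Gr b ν l n -
      ∑ n with Y.pu n = some (Y.rp q) ∧ Y.noG Gr n, Y.con Gr b ν l n := by
  have h1 : ∑ v ∈ Gr.filter (fun v => Y.row v = some q), η v * ∑ n with Y.vx n = v, w (Y.ed n) =
      ∑ n with Y.row (Y.vx n) = some q ∧ Y.vx n ∈ Gr,
        (Y.wn Gr b w η ν l (Y.ed n) - w (Y.ed n)) := by
    have h2 := push_fib Y (Gr.filter (fun v => Y.row v = some q)) (fun _ => True)
      (fun n => w (Y.ed n)) η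
    have h3 : ∑ v ∈ Gr.filter (fun v => Y.row v = some q), η v * ∑ n with Y.vx n = v, w (Y.ed n) =
        ∑ v ∈ Gr.filter (fun v => Y.row v = some q),
          (∑ n with Y.vx n = v ∧ True, w (Y.ed n)) * η v := by
      refine Finset.sum_congr rfl (fun v _ => ?_)
      rw [mul_comm]
      congr 1
      refine Finset.sum_congr ?_ (fun _ _ => rfl)
      ext n; simp
    rw [h3, h2]
    refine Finset.sum_congr ?_ (fun n hn => ?_)
    · ext n
      simp only [Finset.mem_filter, Finset.mem_univ, true_and, and_true]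
      exact and_comm
    · rw [wn_G hY dis b w η ν l (Finset.mem_filter.1 hn).2.2]
      ring
  have h4 : ∑ n with Y.row (Y.vx n) = some q, (Y.wn Gr b w η ν l (Y.ed n) - w (Y.ed n)) =
      ∑ n with Y.row (Y.vx n) = some q ∧ Y.vx n ∈ Gr,
        (Y.wn Gr b w η ν l (Y.ed n) - w (Y.ed n)) +
      (∑ n with Y.row (Y.vx n) = some q ∧ Y.noG Gr n,
        (Y.wn Gr b w η ν l (Y.ed n) - w (Y.ed n)) +
      ∑ n with Y.row (Y.vx n) = some q ∧ (Y.vx n ∉ Gr ∧ ¬ Y.noG Gr n),
        (Y.wn Gr b w η ν l (Y.ed n) - w (Y.ed n))) := by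
    rw [Finset.sum_filter, Finset.sum_filter, Finset.sum_filter, Finset.sum_filter,
      ← Finset.sum_add_distrib, ← Finset.sum_add_distrib]
    refine Finset.sum_congr rfl (fun n _ => ?_)
    by_cases hr : Y.row (Y.vx n) = some q
    · by_cases hv : Y.vx n ∈ Gr
      · rw [if_pos hr, if_pos ⟨hr, hv⟩, if_neg (fun h => h.2.1 hv), if_neg (fun h => h.2.1 hv)]
        ring
      · by_cases hn : Y.noG Gr n
        · rw [if_pos hr, if_neg (fun h => hv h.2), if_pos ⟨hr, hn⟩, if_neg (fun h => h.2.2 hn)]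
          ring
        · rw [if_pos hr, if_neg (fun h => hv h.2), if_neg (fun h => hn h.2), if_pos ⟨hr, hv, hn⟩]
          ring
    · rw [if_neg hr, if_neg (fun h => hr h.1), if_neg (fun h => hr h.1),
        if_neg (fun h => hr h.1)]
      ring
  have h5 : ∑ n with Y.row (Y.vx n) = some q ∧ Y.noG Gr n,
        (Y.wn Gr b w η ν l (Y.ed n) - w (Y.ed n)) =
      - ∑ n with Y.row (Y.vx n) = some q ∧ Y.noG Gr n, Y.con Gr b ν l n -
      ∑ n with Y.pu n = some (Y.rp q) ∧ Y.noG Gr n, Y.con Gr b ν l n := by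
    rw [← cm_eq hY Gr (Y.con Gr b ν l) (fun n hn => con_none hn) q,
      ← Finset.sum_neg_distrib, ← Finset.sum_sub_distrib]
    refine Finset.sum_congr rfl (fun n hn => ?_)
    rw [wn_N hY b w η ν l (Finset.mem_filter.1 hn).2.2]
    unfold Sys.cm
    rcases h6 : Y.mt n with _ | n'
    · rw [sum_ed_none hY _ h6]
      ring
    · rw [sum_ed_some hY _ h6]
      ring
  rw [h1, h4, h5, far_eq hY dis b w η ν l q]
  ring

theorem push_sum_aC [Fintype P] (Y : Sys E V P R N) (Gr : Finset V) {b w : E → ℝ}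
    {β c Mr : ℝ} (b0 : ∀ e, 0 ≤ b e ∧ b e ≤ β) (w0 : ∀ e, |w e - b e| ≤ b e / 2)
    (hβ : 0 ≤ β) (hc : 0 < c) (hm : ∀ p, c * Y.D p ≤ Y.B Gr b p) (q : R)
    (hMr : ((univ.filter fun n => Y.row (Y.vx n) = some q).card : ℝ) ≤ Mr) :
    ∑ v ∈ Gr, Y.aC Gr b w true q v + ∑ v ∈ Gr, Y.aC Gr b w false q v ≤ 2 * β ^ 2 / c * Mr := by
  have h1 : ∀ h : Bool, ∑ v ∈ Gr, Y.aC Gr b w h q v ≤
      ∑ p with (h = true ↔ ¬ Y.isR p), 2 * β / c * Y.g Gr b p q := by
    intro h
    have h2 : ∑ v ∈ Gr, Y.aC Gr b w h q v = ∑ v ∈ Gr, Y.aC Gr b w h q v * (fun _ => (1:ℝ)) v :=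
      Finset.sum_congr rfl (fun v _ => (mul_one _).symm)
    rw [h2, push_aC]
    refine Finset.sum_le_sum (fun p _ => ?_)
    have h3 := push_sum_aN Y Gr b0 w0 p
    have hg := push_g0 Y Gr (fun e => (b0 e).1) p q
    rcases (push_B0 Y Gr (fun e => (b0 e).1) p).lt_or_eq with hB | hB
    · rw [← mul_div_assoc, div_mul_eq_mul_div, div_le_div_iff₀ hB hc]
      calc Y.nu Gr w (fun _ => 1) p * Y.g Gr b p q * c ≤
            (2 * β * Y.D p) * Y.g Gr b p q * c := by
            refine mul_le_mul_of_nonneg_right (mul_le_mul_of_nonneg_right h3.2 hg) hc.le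
        _ = 2 * β * Y.g Gr b p q * (c * Y.D p) := by ring
        _ ≤ 2 * β * Y.g Gr b p q * Y.B Gr b p :=
            mul_le_mul_of_nonneg_left (hm p) (by positivity)
    · rw [← hB, div_zero, mul_zero]
      positivity
  have h4 : ∑ p with (true = true ↔ ¬ Y.isR p), 2 * β / c * Y.g Gr b p q +
      ∑ p with (false = true ↔ ¬ Y.isR p), 2 * β / c * Y.g Gr b p q =
      ∑ p with True, 2 * β / c * Y.g Gr b p q := by
    rw [← Finset.sum_filter_add_sum_filter_not (univ.filter fun _ : P => True)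
      (fun p => (true = true ↔ ¬ Y.isR p))]
    congr 1
    · refine Finset.sum_congr ?_ (fun _ _ => rfl)
      ext p; simp
    · refine Finset.sum_congr ?_ (fun _ _ => rfl)
      ext p; simp
  refine (add_le_add (h1 true) (h1 false)).trans ?_
  rw [h4, ← Finset.mul_sum]
  have h5 : ∑ p with True, Y.g Gr b p q =
      ∑ n with (Y.row (Y.vx n) = some q ∧ Y.noG Gr n) ∧ (∃ p, Y.pu n = some p ∧ True),
        b (Y.ed n) :=
    (push_fibP Y (fun _ => True) (fun n => Y.row (Y.vx n) = some q ∧ Y.noG Gr n)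
      (fun n => b (Y.ed n)) (fun _ n => b (Y.ed n)) (fun _ _ _ => rfl)).symm
  have h6 : ∑ p with True, Y.g Gr b p q ≤ β * Mr := by
    rw [h5]
    have h7 : ∑ n with (Y.row (Y.vx n) = some q ∧ Y.noG Gr n) ∧ (∃ p, Y.pu n = some p ∧ True),
        b (Y.ed n) ≤ ∑ n with Y.row (Y.vx n) = some q, β := by
      refine (Finset.sum_le_sum (g := fun _ => β) (fun n _ => (b0 _).2)).trans ?_
      refine Finset.sum_le_sum_of_subset_of_nonneg ?_ (fun n _ _ => hβ)
      intro n hn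
      rw [Finset.mem_filter] at hn ⊢
      exact ⟨hn.1, hn.2.1.1⟩
    refine h7.trans ?_
    rw [Finset.sum_const, nsmul_eq_mul, mul_comm]
    exact mul_le_mul_of_nonneg_left hMr hβ
  calc 2 * β / c * ∑ p with True, Y.g Gr b p q ≤ 2 * β / c * (β * Mr) :=
        mul_le_mul_of_nonneg_left h6 (by positivity)
    _ = 2 * β ^ 2 / c * Mr := by ring

theorem stmt_PUSH : Stmt_PUSH.{u} := by
  intro E V P R N _ _ _ _ _ Y par Gr b w η ηb β c K t wh wr D0 E0 δ κ1 Mr hN hκ hMr hY hR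
  have hβ := hN.β
  have hc := hN.c
  have hK : 0 < K := lt_of_lt_of_le one_pos hN.K
  have ht : 0 < t := lt_of_lt_of_le one_pos hN.t
  have hwh : 0 < wh := lt_of_lt_of_le one_pos hN.wh
  have hwr : 0 < wr := lt_of_lt_of_le one_pos hN.wr
  have hD0 : 0 < D0 := lt_of_lt_of_le one_pos hN.D0
  have hE0 : 0 < E0 := lt_of_lt_of_le one_pos hN.E0
  have hδ := hN.δ
  have hk1 : 0 < kap β c t wh := by unfold kap; positivity
  have hk2 : 0 < kap β c t wr := by unfold kap; positivity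
  have hb0 : ∀ e, 0 ≤ b e := fun e => (hR.b0 e).1
  have hw := push_w hR.b0 hR.w0
  -- the corrections
  obtain ⟨G0, hG0⟩ : ∃ G0 : Bool → ℝ, G0 = fun h => if h = true then
    K ^ 2 * kap β c t wh / δ ^ 2 else 1 := ⟨_, rfl⟩
  obtain ⟨F, hF⟩ : ∃ F : Bool → R → ℝ, F = fun h q =>
    ∑ v ∈ Gr, Y.aC Gr b w h q v * (η v - ηb v) := ⟨_, rfl⟩
  obtain ⟨lm, hlm⟩ : ∃ lm : Bool → R → ℝ, lm = fun h q => lamq (F h q) (Y.GG Gr b h q) (G0 h) :=
    ⟨_, rfl⟩
  have hGG : ∀ h q, 0 ≤ Y.GG Gr b h q := fun h q =>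
    Finset.sum_nonneg (fun p _ => div_nonneg (push_g0 Y Gr hb0 p q) (push_B0 Y Gr hb0 p))
  have hGt : 0 < G0 true := by rw [hG0]; simp only [if_true]; positivity
  have hGf : G0 false = 1 := by rw [hG0]; simp
  have hGt' : G0 true = K ^ 2 * kap β c t wh / δ ^ 2 := by rw [hG0]; simp
  have hFt : ∀ q, |F true q| ≤ K * Real.sqrt (kap β c t wh * Y.GG Gr b true q) := by
    intro q
    rw [hF]
    refine (hR.t2 true q).trans (mul_le_mul_of_nonneg_left (Real.sqrt_le_sqrt ?_) hK.le)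
    exact push_aC_sq Y Gr hR.b0 hR.w0 hβ.le hc ht.le hR.tv hR.mass true q
      (fun p hp => hR.wh p q (hp.1 rfl))
  have hFf : ∀ q, |F false q| ≤ K * Real.sqrt (kap β c t wr * Y.GG Gr b false q) := by
    intro q
    rw [hF]
    refine (hR.t2 false q).trans (mul_le_mul_of_nonneg_left (Real.sqrt_le_sqrt ?_) hK.le)
    refine push_aC_sq Y Gr hR.b0 hR.w0 hβ.le hc ht.le hR.tv hR.mass false q
      (fun p hp => hR.wr p q ?_)
    by_contra hnp
    exact absurd (hp.2 hnp) (by simp)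
  have hlt : ∀ q, |lm true q| ≤ δ ∧ |F true q - lm true q * Y.GG Gr b true q| ≤
      K ^ 2 * kap β c t wh / δ := by
    intro q
    have h1 := lamq_bd hK hk1 hGt (hGG true q) (hFt q)
    have h2 : K * Real.sqrt (kap β c t wh / G0 true) = δ := by
      rw [hGt']
      have : kap β c t wh / (K ^ 2 * kap β c t wh / δ ^ 2) = (δ / K) ^ 2 := by
        field_simp
      rw [this, Real.sqrt_sq (by positivity)]
      field_simp
    have h3 : K * Real.sqrt (kap β c t wh * G0 true) = K ^ 2 * kap β c t wh / δ := by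
      rw [hGt']
      have : kap β c t wh * (K ^ 2 * kap β c t wh / δ ^ 2) = (K * kap β c t wh / δ) ^ 2 := by
        field_simp
      rw [this, Real.sqrt_sq (by positivity)]
      ring
    rw [hlm]
    rw [h2, h3] at h1
    exact h1
  have hlf : ∀ q, |lm false q| ≤ K * Real.sqrt (kap β c t wr) ∧
      |F false q - lm false q * Y.GG Gr b false q| ≤ K * Real.sqrt (kap β c t wr) := by
    intro q
    have hGf0 : 0 < G0 false := by rw [hGf]; exact one_pos
    have h1 := lamq_bd (G0 := G0 false) hK hk2 hGf0 (hGG false q) (hFf q)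
    have h2 : K * Real.sqrt (kap β c t wr / G0 false) = K * Real.sqrt (kap β c t wr) := by
      rw [hGf, div_one]
    have h3 : K * Real.sqrt (kap β c t wr * G0 false) = K * Real.sqrt (kap β c t wr) := by
      rw [hGf, mul_one]
    rw [hlm]
    rw [h2, h3] at h1
    exact h1
  obtain ⟨l, hl⟩ : ∃ l : P → Option R → ℝ, l = fun p r =>
    match r with
    | some q => lm (decide (¬ Y.isR p)) q
    | none => 0 := ⟨_, rfl⟩
  have hlp : ∀ p, ¬ Y.isR p → ∀ r, |l p r| ≤ δ := by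
    intro p hp r
    rw [hl]
    rcases r with _ | q
    · simp only [abs_zero]; exact hδ.le
    · simp only [hp, not_false_eq_true, decide_true]
      exact (hlt q).1
  have hlr : ∀ p, Y.isR p → ∀ r, |l p r| ≤ K * Real.sqrt (kap β c t wr) := by
    intro p hp r
    rw [hl]
    rcases r with _ | q
    · simp only [abs_zero]; positivity
    · simp only [hp, not_true_eq_false, decide_false]
      exact (hlf q).1
  have hls : ∀ (q : R) p h, (h = true ↔ ¬ Y.isR p) → l p (some q) = lm h q := by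
    intro q p h hh
    rw [hl]
    have : decide (¬ Y.isR p) = h := by
      rcases h with _ | _
      · rw [decide_eq_false_iff_not]
        intro h1; exact absurd (hh.2 h1) (by simp)
      · rw [decide_eq_true_iff]
        exact hh.1 rfl
    simp only [this]
  -- bounds for the corrections
  have hcon1 : ∀ n p, Y.pu n = some p → ¬ Y.isR p → |Y.con Gr b (Y.nu Gr w η) l n| ≤
      ((2 * β * K + δ) / (c * Real.sqrt D0) + 2 * β * κ1 / c) * b (Y.ed n) := by
    intro n p hp hnp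
    have hD := hR.Dh n p hp hnp
    have hDp : 0 < Y.D p := lt_of_lt_of_le hD0 hD
    have hB : 0 < Y.B Gr b p := lt_of_lt_of_le (mul_pos hc hDp) (hR.mass p)
    have h1 := push_nu_bd Y Gr hR.b0 hR.w0 hβ.le hK.le hκ zero_le_one p hR.bi (hR.t1 p)
      (fun v => by
        have := hR.ph p v hnp
        have h2 : (univ.filter fun n => Y.vx n = v ∧ Y.pu n = some p).card =
            (univ.filter fun n => Y.pu n = some p ∧ Y.vx n = v).card := by
          congr 1; ext m; simp only [Finset.mem_filter, Finset.mem_univ, true_and, and_comm]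
        rw [h2]; exact_mod_cast this)
    rw [one_mul] at h1
    rw [con_some hp, abs_mul, abs_of_nonneg (div_nonneg (hb0 _) hB.le)]
    have h3 : |Y.nu Gr w η p - l p (Y.row (Y.vx n))| ≤
        2 * β * K * Real.sqrt (Y.D p) + κ1 * (2 * β * Y.D p) + δ :=
      (abs_sub _ _).trans (add_le_add h1 (hlp p hnp _))
    have hs : 0 < Real.sqrt D0 := Real.sqrt_pos.2 hD0
    have hs1 : 1 ≤ Real.sqrt D0 := by
      rw [Real.one_le_sqrt]; exact hN.D0
    have hs2 : Real.sqrt D0 ≤ Real.sqrt (Y.D p) := Real.sqrt_le_sqrt hD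
    have hs3 : Real.sqrt (Y.D p) * Real.sqrt (Y.D p) = Y.D p := Real.mul_self_sqrt hDp.le
    have h4 : (2 * β * K * Real.sqrt (Y.D p) + κ1 * (2 * β * Y.D p) + δ) / Y.B Gr b p ≤
        (2 * β * K + δ) / (c * Real.sqrt D0) + 2 * β * κ1 / c := by
      have h5 : (2 * β * K * Real.sqrt (Y.D p) + κ1 * (2 * β * Y.D p) + δ) / Y.B Gr b p ≤
          (2 * β * K * Real.sqrt (Y.D p) + κ1 * (2 * β * Y.D p) + δ) / (c * Y.D p) :=
        div_le_div_of_nonneg_left (by positivity) (mul_pos hc hDp) (hR.mass p)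
      refine h5.trans ?_
      have h6 : (2 * β * K * Real.sqrt (Y.D p) + κ1 * (2 * β * Y.D p) + δ) / (c * Y.D p) =
          (2 * β * K * Real.sqrt (Y.D p) + δ) / (c * Y.D p) + 2 * β * κ1 / c := by
        field_simp
        ring
      rw [h6]
      refine add_le_add ?_ le_rfl
      rw [div_le_div_iff₀ (mul_pos hc hDp) (mul_pos hc hs)]
      have hq : 0 < Real.sqrt (Y.D p) := lt_of_lt_of_le hs hs2
      have h7 : Real.sqrt (Y.D p) * Real.sqrt D0 ≤ Y.D p := by
        calc Real.sqrt (Y.D p) * Real.sqrt D0 ≤ Real.sqrt (Y.D p) * Real.sqrt (Y.D p) :=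
              mul_le_mul_of_nonneg_left hs2 hq.le
          _ = Y.D p := hs3
      have h8 : Real.sqrt D0 ≤ Y.D p := by
        calc Real.sqrt D0 = 1 * Real.sqrt D0 := (one_mul _).symm
          _ ≤ Real.sqrt (Y.D p) * Real.sqrt D0 :=
              mul_le_mul_of_nonneg_right (hs1.trans hs2) hs.le
          _ ≤ _ := h7
      calc (2 * β * K * Real.sqrt (Y.D p) + δ) * (c * Real.sqrt D0) =
            c * (2 * β * K * (Real.sqrt (Y.D p) * Real.sqrt D0) + δ * Real.sqrt D0) := by ring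
        _ ≤ c * (2 * β * K * Y.D p + δ * Y.D p) := by
            refine mul_le_mul_of_nonneg_left (add_le_add ?_ ?_) hc.le
            · exact mul_le_mul_of_nonneg_left h7 (by positivity)
            · exact mul_le_mul_of_nonneg_left h8 hδ.le
        _ = (2 * β * K + δ) * (c * Y.D p) := by ring
    calc |Y.nu Gr w η p - l p (Y.row (Y.vx n))| * (b (Y.ed n) / Y.B Gr b p) ≤
          (2 * β * K * Real.sqrt (Y.D p) + κ1 * (2 * β * Y.D p) + δ) *
            (b (Y.ed n) / Y.B Gr b p) :=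
          mul_le_mul_of_nonneg_right h3 (div_nonneg (hb0 _) hB.le)
      _ = (2 * β * K * Real.sqrt (Y.D p) + κ1 * (2 * β * Y.D p) + δ) / Y.B Gr b p *
            b (Y.ed n) := by ring
      _ ≤ _ := mul_le_mul_of_nonneg_right h4 (hb0 _)
  have hcon2 : ∀ n p, Y.pu n = some p → Y.isR p → |Y.con Gr b (Y.nu Gr w η) l n| ≤
      ((2 * β * K * Real.sqrt (t / E0) + K * Real.sqrt (kap β c t wr) / E0) / c +
        2 * β * κ1 / c) * b (Y.ed n) := by
    intro n p hp hnp
    have hD := hR.Dr n p hp hnp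
    have hDp : 0 < Y.D p := lt_of_lt_of_le hE0 hD
    have hB : 0 < Y.B Gr b p := lt_of_lt_of_le (mul_pos hc hDp) (hR.mass p)
    have h1 := push_nu_bd Y Gr hR.b0 hR.w0 hβ.le hK.le hκ ht.le p hR.bi (hR.t1 p)
      (fun v => by
        refine le_trans ?_ (hR.tv v)
        exact_mod_cast Finset.card_le_card (fun m hm => by
          rw [Finset.mem_filter] at hm ⊢
          exact ⟨hm.1, hm.2.1⟩))
    rw [con_some hp, abs_mul, abs_of_nonneg (div_nonneg (hb0 _) hB.le)]
    have h3 : |Y.nu Gr w η p - l p (Y.row (Y.vx n))| ≤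
        2 * β * K * Real.sqrt (t * Y.D p) + κ1 * (2 * β * Y.D p) +
          K * Real.sqrt (kap β c t wr) :=
      (abs_sub _ _).trans (add_le_add h1 (hlr p hnp _))
    have h4 : (2 * β * K * Real.sqrt (t * Y.D p) + κ1 * (2 * β * Y.D p) +
          K * Real.sqrt (kap β c t wr)) / Y.B Gr b p ≤
        (2 * β * K * Real.sqrt (t / E0) + K * Real.sqrt (kap β c t wr) / E0) / c +
          2 * β * κ1 / c := by
      have h5 : (2 * β * K * Real.sqrt (t * Y.D p) + κ1 * (2 * β * Y.D p) +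
          K * Real.sqrt (kap β c t wr)) / Y.B Gr b p ≤
          (2 * β * K * Real.sqrt (t * Y.D p) + κ1 * (2 * β * Y.D p) +
          K * Real.sqrt (kap β c t wr)) / (c * Y.D p) :=
        div_le_div_of_nonneg_left (by positivity) (mul_pos hc hDp) (hR.mass p)
      refine h5.trans ?_
      have h6 : (2 * β * K * Real.sqrt (t * Y.D p) + κ1 * (2 * β * Y.D p) +
          K * Real.sqrt (kap β c t wr)) / (c * Y.D p) =
          (2 * β * K * (Real.sqrt (t * Y.D p) / Y.D p) +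
            K * Real.sqrt (kap β c t wr) / Y.D p) / c + 2 * β * κ1 / c := by
        field_simp
        ring
      rw [h6]
      refine add_le_add ?_ le_rfl
      refine div_le_div_of_nonneg_right (add_le_add ?_ ?_) hc.le
      · refine mul_le_mul_of_nonneg_left ?_ (by positivity)
        have h7 : Real.sqrt (t * Y.D p) / Y.D p = Real.sqrt (t / Y.D p) := by
          rw [div_eq_iff hDp.ne']
          have : t * Y.D p = (t / Y.D p) * (Y.D p) ^ 2 := by field_simp
          rw [this, Real.sqrt_mul (by positivity), Real.sqrt_sq hDp.le]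
        rw [h7]
        exact Real.sqrt_le_sqrt (div_le_div_of_nonneg_left ht.le hE0 hD)
      · exact div_le_div_of_nonneg_left (by positivity) hE0 hD
    calc |Y.nu Gr w η p - l p (Y.row (Y.vx n))| * (b (Y.ed n) / Y.B Gr b p) ≤
          (2 * β * K * Real.sqrt (t * Y.D p) + κ1 * (2 * β * Y.D p) +
          K * Real.sqrt (kap β c t wr)) * (b (Y.ed n) / Y.B Gr b p) :=
          mul_le_mul_of_nonneg_right h3 (div_nonneg (hb0 _) hB.le)
      _ = (2 * β * K * Real.sqrt (t * Y.D p) + κ1 * (2 * β * Y.D p) +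
          K * Real.sqrt (kap β c t wr)) / Y.B Gr b p * b (Y.ed n) := by ring
      _ ≤ _ := mul_le_mul_of_nonneg_right h4 (hb0 _)
  refine ⟨Y.wn Gr b w η (Y.nu Gr w η) l, fun n hn => wn_G hY hR.dis b w η _ l hn,
    fun n hn => ?_, fun p hp => push_p hY hR.dis η hb0 hc hδ.le l p hp (hR.mass p) (hlp p hp),
    fun q => ?_⟩
  · -- relative change
    rw [wn_N hY b w η _ l hn, sub_sub_cancel_left, abs_neg]
    have hbn := hb0 (Y.ed n)
    obtain ⟨X1, hX1⟩ : ∃ X1, X1 = (2 * β * K + δ) / (c * Real.sqrt D0) := ⟨_, rfl⟩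
    obtain ⟨X2, hX2⟩ : ∃ X2, X2 = (2 * β * K * Real.sqrt (t / E0) +
      K * Real.sqrt (kap β c t wr) / E0) / c := ⟨_, rfl⟩
    have hX10 : 0 ≤ X1 := by rw [hX1]; positivity
    have hX20 : 0 ≤ X2 := by rw [hX2]; positivity
    have hX3 : 0 ≤ 2 * β * κ1 / c := by positivity
    have hdl : dlt β c K t wr D0 E0 δ κ1 = 2 * X1 + 2 * X2 + 2 * (2 * β * κ1 / c) := by
      unfold dlt; rw [hX1, hX2]; ring
    have hany : ∀ m, Y.ed m = Y.ed n → |Y.con Gr b (Y.nu Gr w η) l m| ≤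
        (X1 + X2 + 2 * β * κ1 / c) * b (Y.ed n) := by
      intro m hm
      rcases hp : Y.pu m with _ | p
      · rw [con_none hp, abs_zero]; positivity
      · by_cases hR' : Y.isR p
        · refine (hcon2 m p hp hR').trans ?_
          rw [hm, ← hX2]
          exact mul_le_mul_of_nonneg_right (by linarith) hbn
        · refine (hcon1 m p hp hR').trans ?_
          rw [hm, ← hX1]
          exact mul_le_mul_of_nonneg_right (by linarith) hbn
    rw [hdl]
    rcases h1 : Y.mt n with _ | n'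
    · rw [sum_ed_none hY _ h1]
      refine (hany n rfl).trans (mul_le_mul_of_nonneg_right (by linarith) hbn)
    · rw [sum_ed_some hY _ h1]
      refine (abs_add_le _ _).trans ((add_le_add (hany n rfl)
        (hany n' (hY.m1 n n' h1).2.1)).trans (le_of_eq ?_))
      ring
  · -- rows
    rw [row_eq hY hR.dis b w η _ l q]
    have hown := own_eq Y Gr (b := b) (w := w) η (fun h => lm h q) l q (hls q)
    rw [hown]
    have hM := con_sum Y Gr (w := w) η hb0 hc (by positivity) l (Y.rp q) (hR.mass _)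
      (hlr (Y.rp q) ⟨q, rfl⟩)
    -- splitting of the own corrections
    have hsp : ∀ h, ∑ v ∈ Gr, Y.aC Gr b w h q v * η v =
        F h q + ∑ v ∈ Gr, Y.aC Gr b w h q v * ηb v := by
      intro h
      rw [hF, ← Finset.sum_add_distrib]
      exact Finset.sum_congr rfl (fun v _ => by ring)
    have haC0 : ∀ h v, 0 ≤ Y.aC Gr b w h q v := by
      intro h v
      unfold Sys.aC
      refine Finset.sum_nonneg (fun n _ => mul_nonneg (hw _).1 ?_)
      rcases Y.pu n with _ | p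
      · exact le_rfl
      · exact div_nonneg (push_g0 Y Gr hb0 p q) (push_B0 Y Gr hb0 p)
    have hbb : ∀ h, |∑ v ∈ Gr, Y.aC Gr b w h q v * ηb v| ≤
        κ1 * ∑ v ∈ Gr, Y.aC Gr b w h q v := by
      intro h
      refine (Finset.abs_sum_le_sum_abs _ _).trans ?_
      rw [Finset.mul_sum]
      refine Finset.sum_le_sum (fun v _ => ?_)
      rw [abs_mul, abs_of_nonneg (haC0 h v), mul_comm]
      exact mul_le_mul_of_nonneg_right (hR.bi v) (haC0 h v)
    have hsC := push_sum_aC Y Gr hR.b0 hR.w0 hβ.le hc hR.mass q (hR.Mr q)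
    -- far ends
    have hfar : |∑ v ∈ Gr, Y.aF w q v * η v - Y.nu Gr w η (Y.rp q)| ≤
        2 * β * K * Real.sqrt (t * E0) + κ1 * (2 * β * Mr) := by
      by_cases hpar : par q
      · have h1 : ∑ v ∈ Gr, Y.aF w q v * η v = Y.nu Gr w η (Y.rp q) := by
          unfold Sys.aF Sys.nu
          rw [push_fib Y Gr (fun n => ∃ n', Y.mt n = some n' ∧ Y.row (Y.vx n') = some q) _ η]
          refine Finset.sum_congr ?_ (fun _ _ => rfl)
          ext n
          rw [Finset.mem_filter, Finset.mem_filter]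
          constructor
          · rintro ⟨h2, h3, n', h4, h5⟩
            exact ⟨h2, h3, (hY.m5 n n' q h4 h5).2 hpar⟩
          · rintro ⟨h2, h3, h4⟩
            rcases h5 : Y.mt n with _ | n'
            · exact absurd h4 (hY.m4 n q h5)
            · obtain ⟨q', h6, h7⟩ := hY.m3 n n' _ h5 h4
              exact ⟨h2, h3, n', rfl, by rw [h7, hY.inj h6]⟩
        rw [h1, sub_self, abs_zero]
        positivity
      · have h1 : Y.nu Gr w η (Y.rp q) = 0 := by
          unfold Sys.nu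
          refine Finset.sum_eq_zero (fun n hn => ?_)
          exfalso
          have h4 := (Finset.mem_filter.1 hn).2.2
          rcases h5 : Y.mt n with _ | n'
          · exact absurd h4 (hY.m4 n q h5)
          · obtain ⟨q', h6, h7⟩ := hY.m3 n n' _ h5 h4
            have h8 : q = q' := hY.inj h6
            exact hpar ((hY.m5 n n' q h5 (by rw [h7, h8])).1 h4)
        rw [h1, sub_zero]
        have haF0 : ∀ v ∈ Gr, 0 ≤ Y.aF w q v := fun v _ =>
          Finset.sum_nonneg (fun n _ => (hw _).1)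
        have h2 := push_tst (hR.t3 q) haF0 hR.bi
        have h3 : ∑ v ∈ Gr, Y.aF w q v ≤ 2 * β *
            ((univ.filter fun n => ∃ n', Y.mt n = some n' ∧
              Y.row (Y.vx n') = some q).card : ℝ) := by
          have h4 : ∑ v ∈ Gr, Y.aF w q v = ∑ v ∈ Gr, Y.aF w q v * (fun _ => (1:ℝ)) v :=
            Finset.sum_congr rfl (fun v _ => (mul_one _).symm)
          rw [h4]
          unfold Sys.aF
          rw [push_fib Y Gr (fun n => ∃ n', Y.mt n = some n' ∧ Y.row (Y.vx n') = some q) _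
            (fun _ => (1:ℝ))]
          have h5 : ∑ n with Y.vx n ∈ Gr ∧ (∃ n', Y.mt n = some n' ∧
                Y.row (Y.vx n') = some q), w (Y.ed n) * 1 ≤
              ∑ n with (∃ n', Y.mt n = some n' ∧ Y.row (Y.vx n') = some q), 2 * β := by
            refine (Finset.sum_le_sum (g := fun _ => 2 * β) (fun n _ => ?_)).trans ?_
            · rw [mul_one]; exact (hw _).2
            · refine Finset.sum_le_sum_of_subset_of_nonneg ?_ (fun n _ _ => by positivity)
              intro n hn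
              rw [Finset.mem_filter] at hn ⊢
              exact ⟨hn.1, hn.2.2⟩
          refine h5.trans (le_of_eq ?_)
          rw [Finset.sum_const, nsmul_eq_mul, mul_comm]
        have h6 : ((univ.filter fun n => ∃ n', Y.mt n = some n' ∧
            Y.row (Y.vx n') = some q).card : ℝ) ≤ Mr := by
          refine le_trans ?_ (hR.Mr q)
          exact_mod_cast Finset.card_le_card_of_injOn (fun n => (Y.mt n).getD n)
            (by
              intro n hn
              obtain ⟨-, n', h7, h8⟩ := Finset.mem_filter.1 (Finset.mem_coe.1 hn)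
              simp only [h7, Option.getD_some]
              exact Finset.mem_coe.2 (Finset.mem_filter.2 ⟨Finset.mem_univ _, h8⟩))
            (by
              intro n hn m hm hnm
              obtain ⟨-, n', h7, h8⟩ := Finset.mem_filter.1 (Finset.mem_coe.1 hn)
              obtain ⟨-, m', h9, h10⟩ := Finset.mem_filter.1 (Finset.mem_coe.1 hm)
              simp only [h7, h9, Option.getD_some] at hnm
              have h11 := (hY.m1 n n' h7).1
              have h12 := (hY.m1 m m' h9).1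
              rw [hnm, h12] at h11
              exact (Option.some.inj h11).symm)
        have h7 : ∑ v ∈ Gr, Y.aF w q v ^ 2 ≤ (2 * β * t) * (2 * β * E0) := by
          refine push_sq_le haF0 (fun v _ => ?_) (by positivity) (h3.trans
            (mul_le_mul_of_nonneg_left (hR.Er q hpar) (by positivity)))
          unfold Sys.aF
          refine (Finset.sum_le_card_nsmul _ _ (2 * β) (fun n _ => (hw _).2)).trans ?_
          rw [nsmul_eq_mul, mul_comm]
          refine mul_le_mul_of_nonneg_left (le_trans ?_ (hR.tv v)) (by positivity)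
          exact_mod_cast Finset.card_le_card (fun m hm => by
            rw [Finset.mem_filter] at hm ⊢
            exact ⟨hm.1, hm.2.1⟩)
        have h8 : Real.sqrt (∑ v ∈ Gr, Y.aF w q v ^ 2) ≤ 2 * β * Real.sqrt (t * E0) := by
          refine (Real.sqrt_le_sqrt h7).trans (le_of_eq ?_)
          rw [show (2 * β * t) * (2 * β * E0) = (2 * β) ^ 2 * (t * E0) by ring,
            Real.sqrt_mul (by positivity), Real.sqrt_sq (by positivity)]
        refine h2.trans (add_le_add ?_ ?_)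
        · calc K * Real.sqrt (∑ v ∈ Gr, Y.aF w q v ^ 2) ≤ K * (2 * β * Real.sqrt (t * E0)) :=
              mul_le_mul_of_nonneg_left h8 hK.le
            _ = _ := by ring
        · refine mul_le_mul_of_nonneg_left (h3.trans ?_) hκ
          exact mul_le_mul_of_nonneg_left h6 (by positivity)
    -- assembly
    obtain ⟨M, hMd⟩ : ∃ M, M = ∑ n with Y.pu n = some (Y.rp q) ∧ Y.noG Gr n,
      Y.con Gr b (Y.nu Gr w η) l n := ⟨_, rfl⟩
    rw [← hMd] at hM ⊢
    rw [hsp true, hsp false]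
    have e1 := (hlt q).2
    have e2 := (hlf q).2
    have e3 := hbb true
    have e4 := hbb false
    have e5 : κ1 * ∑ v ∈ Gr, Y.aC Gr b w true q v + κ1 * ∑ v ∈ Gr, Y.aC Gr b w false q v ≤
        κ1 * (2 * β ^ 2 / c * Mr) := by
      rw [← mul_add]
      exact mul_le_mul_of_nonneg_left hsC hκ
    have e6 : κ1 * (2 * β ^ 2 / c * Mr) + κ1 * (2 * β * Mr) ≤
        κ1 * Mr * (4 * β ^ 2 / c + 4 * β) := by
      have : κ1 * Mr * (4 * β ^ 2 / c + 4 * β) =
          2 * (κ1 * (2 * β ^ 2 / c * Mr) + κ1 * (2 * β * Mr)) := by ring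
      rw [this]
      have : 0 ≤ κ1 * (2 * β ^ 2 / c * Mr) + κ1 * (2 * β * Mr) := by positivity
      linarith
    unfold rer
    rw [abs_le] at *
    obtain ⟨a1, a2⟩ := hfar
    obtain ⟨a3, a4⟩ := hM
    obtain ⟨a5, a6⟩ := e1
    obtain ⟨a7, a8⟩ := e2
    obtain ⟨a9, a10⟩ := e3
    obtain ⟨a11, a12⟩ := e4
    constructor <;> linarith

end

end Pool.Agent.Work.MP_db9399_ts
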